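import Pool.Agent.Q185.RowVN.Space

/-!
MP_59d57e_an: the row-valued von Neumann inequality does not imply `Mult(H)`-contractivity.
Answer to Q1: no, already for the Hardy space of the unit ball of `ℂ²` and a pair of nilpotent
`3 × 3` matrices.
-/

open scoped ComplexConjugate

namespace Pool.Agent.Results.MP_59d57e_an.RowInequalityNotEnough

open Pool.Agent.Q185.RowVN

/-- Let `T = (T 0, T 1)` be the commuting pair on `ℂ³` with `T i e₀ = e_(i+1)` and
`T i e₁ = T i e₂ = 0`.  For every reproducing kernel Hilbert space `H` on the unit ball of `ℂ²`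
without common zeros on which the column `(z₁, z₂)` is contractive, `T` satisfies the row
inequality and is not `Mult(H)`-contractive.  This applies to the Hardy space of the ball, whose
kernel is `(1 - ⟨z, w⟩)^(-2)`. -/
theorem result :
    (∀ i j, T i * T j = T j * T i) ∧
    (∀ (H : Type) [NormedAddCommGroup H] [InnerProductSpace ℂ H] [CompleteSpace H]
      [RKHS ℂ H Ball ℂ],
      (∀ z : Ball, ∃ f : H, f z ≠ 0) →
      (∀ f : H, ∃ g : Fin 2 → H, (∀ (i : Fin 2) (z : Ball), g i z = (z : Cn 2) i * f z) ∧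
        ∑ i, ‖g i‖ ^ 2 ≤ ‖f‖ ^ 2) →
      RowInequality H T ∧ ¬ MultContractive H T) ∧
    ∃ (H : Type) (_ : NormedAddCommGroup H) (_ : InnerProductSpace ℂ H) (_ : CompleteSpace H)
      (_ : RKHS ℂ H Ball ℂ),
      (∀ z w : Ball, RKHS.kernel H z w 1 =
        1 / (1 - ((z : Cn 2) 0 * conj ((w : Cn 2) 0) + (z : Cn 2) 1 * conj ((w : Cn 2) 1))) ^ 2) ∧
      (∀ z : Ball, ∃ f : H, f z ≠ 0) ∧
      (∀ f : H, ∃ g : Fin 2 → H, (∀ (i : Fin 2) (z : Ball), g i z = (z : Cn 2) i * f z) ∧
        ∑ i, ‖g i‖ ^ 2 ≤ ‖f‖ ^ 2) ∧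
      RowInequality H T ∧ ¬ MultContractive H T := by
  refine ⟨fun i j => by rw [T_mul, T_mul], fun H _ _ _ _ h1 h2 => ⟨row h1, not_contractive h2⟩,
    Hardy, inferInstance, inferInstance, inferInstance, hardyRKHS, ?_⟩
  exact ⟨hardy_kernel, hardy_ne, hardy_col, row hardy_ne, not_contractive hardy_col⟩

end Pool.Agent.Results.MP_59d57e_an.RowInequalityNotEnough
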